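import Mathlib
import Pool.Agent.Run7.h450.W7

/-!
# Radius of comparison of crossed products by powers of a homeomorphism
-/

set_option autoImplicit false

namespace Pool.Agent.Results.MP_d05fd5_an.PowerFormula

open Run7.h450.Dyn
open scoped ENNReal

universe u v

/-- Let `h` be a homeomorphism of a compact metric space `X` and `n ≥ 1` such that `h^n` is
minimal. Then `rc(C*(Z, X, h^n)) = n · rc(C*(Z, X, h))`. -/
theorem result {X : Type u} [MetricSpace X] [CompactSpace X] (n : ℕ) (hn : 1 ≤ n)
    (h : X ≃ₜ X) (minimal : Minimal (h ^ n))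
    {A B : Type v} [CStarAlgebra A] [PartialOrder A] [StarOrderedRing A]
    [CStarAlgebra B] [PartialOrder B] [StarOrderedRing B]
    (powerCrossed : Crossed (h ^ n) A) (crossed : Crossed h B) :
    rc A = n * rc B :=
  rc_pow_all (by omega) minimal powerCrossed crossed

end Pool.Agent.Results.MP_d05fd5_an.PowerFormula
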